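import Pool.Agent.H245R2.TriNum

/-!
# Filling a hole by triangles of distinct sizes accumulating at its base
-/

set_option autoImplicit false

namespace Pool.Agent.H245R2.Tri

/-- Oblique coordinates `(u, v)`: the point `u e₁ + v e₂`, `e₁, e₂` unit vectors at 60 degrees. -/
abbrev Pt := ℝ × ℝ

/-- An up triangle with lower left corner `(c, d)`, or a down triangle with upper right
corner `(c, d)`; side length `s`. -/
inductive Tile where
  | up (c d s : ℝ)
  | dn (c d s : ℝ)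

namespace Tile

/-- side length -/
def size : Tile → ℝ
  | up _ _ s => s
  | dn _ _ s => s

/-- closed triangle -/
def cl : Tile → Set Pt
  | up c d s => {x | c ≤ x.1 ∧ d ≤ x.2 ∧ x.1 + x.2 ≤ c + d + s}
  | dn c d s => {x | x.1 ≤ c ∧ x.2 ≤ d ∧ c + d - s ≤ x.1 + x.2}

/-- open triangle -/
def op : Tile → Set Pt
  | up c d s => {x | c < x.1 ∧ d < x.2 ∧ x.1 + x.2 < c + d + s}
  | dn c d s => {x | x.1 < c ∧ x.2 < d ∧ c + d - s < x.1 + x.2}

end Tile

/-- The hole `[a, a + w] × [0, h]`, its base on the line `v = 0`. -/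
structure Rct where
  a : ℝ
  w : ℝ
  h : ℝ

namespace Rct

/-- closed hole -/
def cl (r : Rct) : Set Pt := {x | r.a ≤ x.1 ∧ x.1 ≤ r.a + r.w ∧ 0 ≤ x.2 ∧ x.2 ≤ r.h}

/-- open hole -/
def op (r : Rct) : Set Pt := {x | r.a < x.1 ∧ x.1 < r.a + r.w ∧ 0 < x.2 ∧ x.2 < r.h}

end Rct

/-- no common point -/
def Dj (A B : Set Pt) : Prop := ∀ x, x ∈ A → x ∈ B → False

theorem Dj.symm {A B : Set Pt} (h : Dj A B) : Dj B A := fun x h1 h2 => h x h2 h1

theorem Dj.mono {A B A' B' : Set Pt} (h : Dj A B) (h1 : A' ⊆ A) (h2 : B' ⊆ B) : Dj A' B' :=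
  fun x hx hy => h x (h1 hx) (h2 hy)

/-- The tiles of a processed hole. -/
def tilesOf (h : ℝ) : ℝ → List (ℝ × ℝ) → List Tile
  | _, [] => []
  | a, (p :: L) => Tile.dn (a + p.1) h p.1 :: Tile.up a (h - p.2) p.2 ::
      Tile.up (a + p.2) (h - p.1) (p.1 - p.2) :: tilesOf h (a + p.1) L

/-- The new holes of a processed hole. -/
def rectsOf (h : ℝ) : ℝ → List (ℝ × ℝ) → List Rct
  | _, [] => []
  | a, (p :: L) => ⟨a, p.2, h - p.2⟩ :: ⟨a + p.2, p.1 - p.2, h - p.1⟩ :: rectsOf h (a + p.1) L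

theorem map_size_tilesOf (h : ℝ) (L : List (ℝ × ℝ)) :
    ∀ a, (tilesOf h a L).map Tile.size = sizes L := by
  induction L with
  | nil => intro a; rfl
  | cons p L ih => intro a; simp [tilesOf, sizes, Tile.size, ih]

theorem sum_nonneg_of_ok {h : ℝ} {L : List (ℝ × ℝ)} (hL : ∀ p ∈ L, PieceOK h p) :
    0 ≤ (L.map Prod.fst).sum := by
  apply List.sum_nonneg
  intro x hx
  obtain ⟨p, hp, rfl⟩ := List.mem_map.1 hx
  have := hL p hp
  linarith [this.1, this.2.1]

theorem size_pos_tilesOf {h : ℝ} {L : List (ℝ × ℝ)} (hL : ∀ p ∈ L, PieceOK h p) :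
    ∀ s ∈ sizes L, 0 < s ∧ s < h := by
  induction L with
  | nil => intro s hs; simp [sizes] at hs
  | cons p L ih =>
    intro s hs
    have hp := hL p (by simp)
    have hL' := ih (fun q hq => hL q (List.mem_cons_of_mem _ hq))
    obtain ⟨h1, h2, h3, -⟩ := hp
    simp only [sizes, List.mem_cons] at hs
    rcases hs with rfl | rfl | rfl | hs
    · constructor <;> linarith
    · constructor <;> linarith
    · constructor <;> linarith
    · exact hL' s hs

/-- strip -/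
def strip (a b h : ℝ) : Set Pt := {x | a < x.1 ∧ x.1 < b ∧ 0 < x.2 ∧ x.2 < h}

theorem tilesOf_strip {h : ℝ} (L : List (ℝ × ℝ)) (hL : ∀ p ∈ L, PieceOK h p) :
    ∀ a, ∀ t ∈ tilesOf h a L, t.op ⊆ strip a (a + (L.map Prod.fst).sum) h := by
  induction L with
  | nil => intro a t ht; simp [tilesOf] at ht
  | cons p L ih =>
    intro a t ht x hx
    obtain ⟨h1, h2, h3, -⟩ := hL p (by simp)
    have hs := sum_nonneg_of_ok (fun q hq => hL q (List.mem_cons_of_mem _ hq))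
    simp only [List.map_cons, List.sum_cons]
    simp only [tilesOf, List.mem_cons] at ht
    rcases ht with rfl | rfl | rfl | ht
    · obtain ⟨a1, a2, a3⟩ := hx
      exact ⟨by linarith, by linarith, by linarith, by linarith⟩
    · obtain ⟨a1, a2, a3⟩ := hx
      exact ⟨by linarith, by linarith, by linarith, by linarith⟩
    · obtain ⟨a1, a2, a3⟩ := hx
      exact ⟨by linarith, by linarith, by linarith, by linarith⟩
    · obtain ⟨a1, a2, a3, a4⟩ := ih (fun q hq => hL q (List.mem_cons_of_mem _ hq)) _ t ht hx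
      exact ⟨by linarith, by linarith, a3, a4⟩

theorem rectsOf_strip {h : ℝ} (L : List (ℝ × ℝ)) (hL : ∀ p ∈ L, PieceOK h p) :
    ∀ a, ∀ r ∈ rectsOf h a L, r.op ⊆ strip a (a + (L.map Prod.fst).sum) h ∧
      0 < r.h ∧ 0 < r.w ∧ K r.w r.h ∧ 2 * r.h ≤ h := by
  induction L with
  | nil => intro a r hr; simp [rectsOf] at hr
  | cons p L ih =>
    intro a r hr
    obtain ⟨h1, h2, h3, h4, h5, h6⟩ := hL p (by simp)
    have hs := sum_nonneg_of_ok (fun q hq => hL q (List.mem_cons_of_mem _ hq))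
    simp only [List.map_cons, List.sum_cons]
    simp only [rectsOf, List.mem_cons] at hr
    rcases hr with rfl | rfl | hr
    · refine ⟨fun x hx => ?_, by simp only; linarith, h1, h4, by simp only; linarith⟩
      obtain ⟨a1, a2, a3, a4⟩ := hx
      simp only at a1 a2 a3 a4
      exact ⟨by linarith, by linarith, by linarith, by linarith⟩
    · refine ⟨fun x hx => ?_, by simp only; linarith, by simp only; linarith, h5,
        by simp only; linarith⟩
      obtain ⟨a1, a2, a3, a4⟩ := hx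
      simp only at a1 a2 a3 a4
      exact ⟨by linarith, by linarith, by linarith, by linarith⟩
    · obtain ⟨b1, b2⟩ := ih (fun q hq => hL q (List.mem_cons_of_mem _ hq)) _ r hr
      refine ⟨fun x hx => ?_, b2⟩
      obtain ⟨a1, a2, a3, a4⟩ := b1 hx
      exact ⟨by linarith, by linarith, a3, a4⟩

theorem cover_of {h : ℝ} (L : List (ℝ × ℝ)) (hL : ∀ p ∈ L, PieceOK h p) :
    ∀ a, 0 < (L.map Prod.fst).sum → ∀ x : Pt, a ≤ x.1 → x.1 ≤ a + (L.map Prod.fst).sum →
      0 ≤ x.2 → x.2 ≤ h → (∃ t ∈ tilesOf h a L, x ∈ t.cl) ∨ (∃ r ∈ rectsOf h a L, x ∈ r.cl) := by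
  induction L with
  | nil => intro a h0; simp at h0
  | cons p L ih =>
    intro a _ x hx1 hx2 hx3 hx4
    obtain ⟨h1, h2, h3, -⟩ := hL p (by simp)
    simp only [List.map_cons, List.sum_cons] at hx2
    by_cases hc : x.1 ≤ a + p.1
    · by_cases hd : a + h ≤ x.1 + x.2
      · left
        refine ⟨_, List.mem_cons_self, ?_⟩
        exact ⟨hc, hx4, by linarith⟩
      · push Not at hd
        by_cases he : x.1 ≤ a + p.2
        · by_cases hf : h - p.2 ≤ x.2
          · left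
            refine ⟨Tile.up a (h - p.2) p.2, by simp [tilesOf], ?_⟩
            exact ⟨hx1, hf, by linarith⟩
          · right
            push Not at hf
            refine ⟨⟨a, p.2, h - p.2⟩, by simp [rectsOf], ?_⟩
            exact ⟨hx1, he, hx3, hf.le⟩
        · push Not at he
          by_cases hf : h - p.1 ≤ x.2
          · left
            refine ⟨Tile.up (a + p.2) (h - p.1) (p.1 - p.2), by simp [tilesOf], ?_⟩
            exact ⟨he.le, hf, by linarith⟩
          · right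
            push Not at hf
            refine ⟨⟨a + p.2, p.1 - p.2, h - p.1⟩, by simp [rectsOf], ?_⟩
            exact ⟨he.le, by simp only; linarith, hx3, hf.le⟩
    · push Not at hc
      have hsum : 0 < (L.map Prod.fst).sum := by linarith
      rcases ih (fun q hq => hL q (List.mem_cons_of_mem _ hq)) (a + p.1) hsum x hc.le
        (by linarith) hx3 hx4 with ⟨t, ht, htx⟩ | ⟨r, hr, hrx⟩
      · exact Or.inl ⟨t, by simp [tilesOf, ht], htx⟩
      · exact Or.inr ⟨r, by simp [rectsOf, hr], hrx⟩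

theorem pw_tiles {h : ℝ} (L : List (ℝ × ℝ)) (hL : ∀ p ∈ L, PieceOK h p) :
    ∀ a, (tilesOf h a L).Pairwise (fun s t => Dj s.op t.op) := by
  induction L with
  | nil => intro a; simp [tilesOf]
  | cons p L ih =>
    intro a
    obtain ⟨h1, h2, h3, -⟩ := hL p (by simp)
    have hL' : ∀ q ∈ L, PieceOK h q := fun q hq => hL q (List.mem_cons_of_mem _ hq)
    have hst := tilesOf_strip L hL' (a + p.1)
    simp only [tilesOf, List.pairwise_cons, List.mem_cons, forall_eq_or_imp]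
    refine ⟨⟨?_, ?_, ?_⟩, ⟨?_, ?_⟩, ?_, ih hL' _⟩
    · rintro x ⟨a1, a2, a3⟩ ⟨b1, b2, b3⟩
      linarith
    · rintro x ⟨a1, a2, a3⟩ ⟨b1, b2, b3⟩
      linarith
    · rintro t ht x ⟨a1, a2, a3⟩ hb
      have := (hst t ht hb).1
      linarith
    · rintro x ⟨a1, a2, a3⟩ ⟨b1, b2, b3⟩
      linarith
    · rintro t ht x ⟨a1, a2, a3⟩ hb
      have := (hst t ht hb).1
      linarith
    · rintro t ht x ⟨a1, a2, a3⟩ hb
      have := (hst t ht hb).1
      linarith

theorem pw_rects {h : ℝ} (L : List (ℝ × ℝ)) (hL : ∀ p ∈ L, PieceOK h p) :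
    ∀ a, (rectsOf h a L).Pairwise (fun s t => Dj s.op t.op) := by
  induction L with
  | nil => intro a; simp [rectsOf]
  | cons p L ih =>
    intro a
    obtain ⟨h1, h2, h3, -⟩ := hL p (by simp)
    have hL' : ∀ q ∈ L, PieceOK h q := fun q hq => hL q (List.mem_cons_of_mem _ hq)
    have hst := rectsOf_strip L hL' (a + p.1)
    simp only [rectsOf, List.pairwise_cons, List.mem_cons, forall_eq_or_imp]
    refine ⟨⟨?_, ?_⟩, ?_, ih hL' _⟩
    · rintro x ⟨a1, a2, a3, a4⟩ ⟨b1, b2, b3, b4⟩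
      simp only at a1 a2 a3 a4 b1 b2 b3 b4
      linarith
    · rintro t ht x ⟨a1, a2, a3, a4⟩ hb
      have := ((hst t ht).1 hb).1
      simp only at a1 a2 a3 a4
      linarith
    · rintro t ht x ⟨a1, a2, a3, a4⟩ hb
      have := ((hst t ht).1 hb).1
      simp only at a1 a2 a3 a4
      linarith

theorem pw_cross {h : ℝ} (L : List (ℝ × ℝ)) (hL : ∀ p ∈ L, PieceOK h p) :
    ∀ a, ∀ t ∈ tilesOf h a L, ∀ r ∈ rectsOf h a L, Dj t.op r.op := by
  induction L with
  | nil => intro a t ht; simp [tilesOf] at ht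
  | cons p L ih =>
    intro a
    obtain ⟨h1, h2, h3, -⟩ := hL p (by simp)
    have hL' : ∀ q ∈ L, PieceOK h q := fun q hq => hL q (List.mem_cons_of_mem _ hq)
    have hst := rectsOf_strip L hL' (a + p.1)
    have hst' := tilesOf_strip L hL' (a + p.1)
    simp only [tilesOf, rectsOf, List.mem_cons, forall_eq_or_imp]
    refine ⟨⟨?_, ?_, ?_⟩, ⟨?_, ?_, ?_⟩, ⟨?_, ?_, ?_⟩, ?_⟩
    · rintro x ⟨a1, a2, a3⟩ ⟨b1, b2, b3, b4⟩
      simp only at b1 b2 b3 b4
      linarith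
    · rintro x ⟨a1, a2, a3⟩ ⟨b1, b2, b3, b4⟩
      simp only at b1 b2 b3 b4
      linarith
    · rintro t ht x ⟨a1, a2, a3⟩ hb
      have := ((hst t ht).1 hb).1
      linarith
    · rintro x ⟨a1, a2, a3⟩ ⟨b1, b2, b3, b4⟩
      simp only at b1 b2 b3 b4
      linarith
    · rintro x ⟨a1, a2, a3⟩ ⟨b1, b2, b3, b4⟩
      simp only at b1 b2 b3 b4
      linarith
    · rintro t ht x ⟨a1, a2, a3⟩ hb
      have := ((hst t ht).1 hb).1
      linarith
    · rintro x ⟨a1, a2, a3⟩ ⟨b1, b2, b3, b4⟩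
      simp only at b1 b2 b3 b4
      linarith
    · rintro x ⟨a1, a2, a3⟩ ⟨b1, b2, b3, b4⟩
      simp only at b1 b2 b3 b4
      linarith
    · rintro t ht x ⟨a1, a2, a3⟩ hb
      have := ((hst t ht).1 hb).1
      linarith
    · intro t ht
      refine ⟨?_, ?_, ih hL' _ t ht⟩
      · rintro x ha ⟨b1, b2, b3, b4⟩
        have := (hst' t ht ha).1
        simp only at b1 b2 b3 b4
        linarith
      · rintro x ha ⟨b1, b2, b3, b4⟩
        have := (hst' t ht ha).1
        simp only at b1 b2 b3 b4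
        linarith

/-- admissible hole -/
def Rct.OK (r : Rct) : Prop := 0 < r.w ∧ 0 < r.h ∧ K r.w r.h

/-- One level of the construction: all the holes of a list are processed. -/
theorem level (R : List Rct) (hR : ∀ r ∈ R, r.OK) (hpw : R.Pairwise (fun r s => Dj r.op s.op)) :
    ∀ F : Set ℝ, F.Countable → ∃ (A : List Tile) (R' : List Rct),
      (A.map Tile.size).Nodup ∧ (∀ t ∈ A, t.size ∉ F ∧ 0 < t.size) ∧
      (∀ t ∈ A, ∃ r ∈ R, t.op ⊆ r.op ∧ t.size < r.h) ∧
      (∀ r' ∈ R', r'.OK ∧ ∃ r ∈ R, r'.op ⊆ r.op ∧ 2 * r'.h ≤ r.h) ∧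
      A.Pairwise (fun s t => Dj s.op t.op) ∧ R'.Pairwise (fun r s => Dj r.op s.op) ∧
      (∀ t ∈ A, ∀ r ∈ R', Dj t.op r.op) ∧
      (∀ r ∈ R, ∀ x ∈ r.cl, (∃ t ∈ A, x ∈ t.cl) ∨ ∃ r' ∈ R', x ∈ r'.cl) := by
  induction R with
  | nil =>
    intro F _
    exact ⟨[], [], by simp, by simp, by simp, by simp, by simp, by simp, by simp, by simp⟩
  | cons r R ih =>
    intro F hF
    rw [List.pairwise_cons] at hpw
    obtain ⟨hrw, hrh, hrK⟩ := hR r (by simp)
    obtain ⟨L, hL1, hL2, hL3, hL4⟩ := good_of_K hrh hrK F hF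
    have hF' : (F ∪ {s | s ∈ sizes L}).Countable := hF.union (List.finite_toSet _).countable
    obtain ⟨A, R', c1, c2, c3, c4, c5, c6, c7, c8⟩ :=
      ih (fun q hq => hR q (List.mem_cons_of_mem _ hq)) hpw.2 _ hF'
    have hst : ∀ t ∈ tilesOf r.h r.a L, t.op ⊆ r.op := by
      intro t ht x hx
      have := tilesOf_strip L hL1 r.a t ht hx
      rw [hL2] at this
      exact this
    have hsr : ∀ q ∈ rectsOf r.h r.a L, q.op ⊆ r.op := by
      intro t ht x hx
      have := (rectsOf_strip L hL1 r.a t ht).1 hx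
      rw [hL2] at this
      exact this
    have hszmem : ∀ t ∈ tilesOf r.h r.a L, t.size ∈ sizes L := by
      intro t ht
      rw [← map_size_tilesOf r.h L r.a]
      exact List.mem_map_of_mem ht
    refine ⟨tilesOf r.h r.a L ++ A, rectsOf r.h r.a L ++ R', ?_, ?_, ?_, ?_, ?_, ?_, ?_, ?_⟩
    · rw [List.map_append, map_size_tilesOf, List.nodup_append']
      refine ⟨hL3, c1, ?_⟩
      intro s hs hs'
      obtain ⟨t, ht, rfl⟩ := List.mem_map.1 hs'
      exact (c2 t ht).1 (Or.inr hs)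
    · intro t ht
      rcases List.mem_append.1 ht with ht | ht
      · exact ⟨hL4 _ (hszmem t ht), (size_pos_tilesOf hL1 _ (hszmem t ht)).1⟩
      · exact ⟨fun hh => (c2 t ht).1 (Or.inl hh), (c2 t ht).2⟩
    · intro t ht
      rcases List.mem_append.1 ht with ht | ht
      · exact ⟨r, by simp, hst t ht, (size_pos_tilesOf hL1 _ (hszmem t ht)).2⟩
      · obtain ⟨q, hq, h1⟩ := c3 t ht
        exact ⟨q, List.mem_cons_of_mem _ hq, h1⟩
    · intro q hq
      rcases List.mem_append.1 hq with hq | hq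
      · obtain ⟨_, b2, b3, b4, b5⟩ := rectsOf_strip L hL1 r.a q hq
        exact ⟨⟨b3, b2, b4⟩, r, by simp, hsr q hq, b5⟩
      · obtain ⟨b1, q', hq', b2⟩ := c4 q hq
        exact ⟨b1, q', List.mem_cons_of_mem _ hq', b2⟩
    · rw [List.pairwise_append]
      refine ⟨pw_tiles L hL1 _, c5, ?_⟩
      intro t ht t' ht'
      obtain ⟨q, hq, h1, _⟩ := c3 t' ht'
      exact (hpw.1 q hq).mono (hst t ht) h1
    · rw [List.pairwise_append]
      refine ⟨pw_rects L hL1 _, c6, ?_⟩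
      intro t ht t' ht'
      obtain ⟨_, q, hq, h1, _⟩ := c4 t' ht'
      exact (hpw.1 q hq).mono (hsr t ht) h1
    · intro t ht q hq
      rcases List.mem_append.1 ht with ht | ht <;> rcases List.mem_append.1 hq with hq | hq
      · exact pw_cross L hL1 _ t ht q hq
      · obtain ⟨_, q', hq', h1, _⟩ := c4 q hq
        exact (hpw.1 q' hq').mono (hst t ht) h1
      · obtain ⟨q', hq', h1, _⟩ := c3 t ht
        exact ((hpw.1 q' hq').mono (hsr q hq) h1).symm
      · exact c7 t ht q hq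
    · intro q hq x hx
      rcases List.mem_cons.1 hq with rfl | hq
      · obtain ⟨a1, a2, a3, a4⟩ := hx
        rcases cover_of L hL1 q.a (by rw [hL2]; exact hrw) x a1 (by rw [hL2]; exact a2) a3 a4 with
          ⟨t, ht, htx⟩ | ⟨q', hq', hqx⟩
        · exact Or.inl ⟨t, List.mem_append.2 (Or.inl ht), htx⟩
        · exact Or.inr ⟨q', List.mem_append.2 (Or.inl hq'), hqx⟩
      · rcases c8 q hq x hx with ⟨t, ht, htx⟩ | ⟨q', hq', hqx⟩
        · exact Or.inl ⟨t, List.mem_append.2 (Or.inr ht), htx⟩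
        · exact Or.inr ⟨q', List.mem_append.2 (Or.inr hq'), hqx⟩

/-- invariant of the construction after `n` levels, for the hole `r₀` and the set `C` of
forbidden sizes. -/
structure Inv (r₀ : Rct) (C : Set ℝ) (n : ℕ) (σ : List Tile × List Rct) : Prop where
  nodup : (σ.1.map Tile.size).Nodup
  sz : ∀ t ∈ σ.1, t.size ∉ C ∧ 0 < t.size ∧ t.size < r₀.h
  top : ∀ t ∈ σ.1, t.op ⊆ r₀.op
  rok : ∀ r ∈ σ.2, r.OK ∧ r.op ⊆ r₀.op ∧ 2 ^ n * r.h ≤ r₀.h
  pt : σ.1.Pairwise (fun s t => Dj s.op t.op)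
  pr : σ.2.Pairwise (fun s t => Dj s.op t.op)
  px : ∀ t ∈ σ.1, ∀ r ∈ σ.2, Dj t.op r.op
  cov : ∀ x ∈ r₀.cl, (∃ t ∈ σ.1, x ∈ t.cl) ∨ ∃ r ∈ σ.2, x ∈ r.cl

theorem inv_step {r₀ : Rct} {C : Set ℝ} (hC : C.Countable) {n : ℕ}
    {σ : List Tile × List Rct}
    (hσ : Inv r₀ C n σ) : ∃ σ' : List Tile × List Rct, Inv r₀ C (n + 1) σ' ∧
      ∀ t ∈ σ.1, t ∈ σ'.1 := by
  have hF : (C ∪ {s | s ∈ σ.1.map Tile.size}).Countable :=
    hC.union (List.finite_toSet _).countable
  obtain ⟨A, R', c1, c2, c3, c4, c5, c6, c7, c8⟩ := level σ.2 (fun r hr => (hσ.rok r hr).1) hσ.pr _ hF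
  have hle : ∀ r ∈ σ.2, r.h ≤ r₀.h := by
    intro r hr
    obtain ⟨h1, _, h3⟩ := hσ.rok r hr
    have : (1 : ℝ) ≤ 2 ^ n := one_le_pow₀ (by norm_num)
    have h4 := h1.2.1
    nlinarith
  refine ⟨(A ++ σ.1, R'), ⟨?_, ?_, ?_, ?_, ?_, ?_, ?_, ?_⟩, fun t ht => List.mem_append.2 (Or.inr ht)⟩
  · rw [List.map_append, List.nodup_append']
    refine ⟨c1, hσ.nodup, ?_⟩
    intro s hs hs'
    obtain ⟨t, ht, rfl⟩ := List.mem_map.1 hs
    exact (c2 t ht).1 (Or.inr hs')
  · intro t ht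
    rcases List.mem_append.1 ht with ht | ht
    · obtain ⟨r, hr, _, h2⟩ := c3 t ht
      exact ⟨fun hh => (c2 t ht).1 (Or.inl hh), (c2 t ht).2, h2.trans_le (hle r hr)⟩
    · exact hσ.sz t ht
  · intro t ht
    rcases List.mem_append.1 ht with ht | ht
    · obtain ⟨r, hr, h1, h2⟩ := c3 t ht
      exact h1.trans (hσ.rok r hr).2.1
    · exact hσ.top t ht
  · intro q hq
    obtain ⟨b1, r, hr, b2, b3⟩ := c4 q hq
    obtain ⟨h1, h2, h3⟩ := hσ.rok r hr
    refine ⟨b1, b2.trans h2, ?_⟩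
    calc (2 : ℝ) ^ (n + 1) * q.h = 2 ^ n * (2 * q.h) := by ring
      _ ≤ 2 ^ n * r.h := by gcongr
      _ ≤ r₀.h := h3
  · rw [List.pairwise_append]
    refine ⟨c5, hσ.pt, ?_⟩
    intro t ht t' ht'
    obtain ⟨r, hr, h1, _⟩ := c3 t ht
    exact ((hσ.px t' ht' r hr).mono (fun _ h => h) h1).symm
  · exact c6
  · intro t ht q hq
    rcases List.mem_append.1 ht with ht | ht
    · exact c7 t ht q hq
    · obtain ⟨_, r, hr, h1, _⟩ := c4 q hq
      exact (hσ.px t ht r hr).mono (fun _ h => h) h1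
  · intro x hx
    rcases hσ.cov x hx with ⟨t, ht, htx⟩ | ⟨r, hr, hrx⟩
    · exact Or.inl ⟨t, List.mem_append.2 (Or.inr ht), htx⟩
    · rcases c8 r hr x hrx with ⟨t, ht, htx⟩ | ⟨r', hr', hrx'⟩
      · exact Or.inl ⟨t, List.mem_append.2 (Or.inl ht), htx⟩
      · exact Or.inr ⟨r', hr', hrx'⟩

/-- **The hole theorem.** -/
theorem hole {r₀ : Rct} (hr₀ : r₀.OK) {C : Set ℝ} (hC : C.Countable) :
    ∃ T : Set Tile, T.Countable ∧ Set.InjOn Tile.size T ∧
      (∀ t ∈ T, t.size ∉ C ∧ 0 < t.size ∧ t.size < r₀.h ∧ t.op ⊆ r₀.op) ∧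
      (∀ s ∈ T, ∀ t ∈ T, s ≠ t → Dj s.op t.op) ∧
      ∀ x ∈ r₀.cl, 0 < x.2 → ∃ t ∈ T, x ∈ t.cl := by
  have h0 : Inv r₀ C 0 ([], [r₀]) := by
    refine ⟨by simp, by simp, by simp, ?_, by simp, by simp, by simp, ?_⟩
    · intro r hr
      simp only [List.mem_cons, List.not_mem_nil, or_false] at hr
      subst hr
      exact ⟨hr₀, subset_rfl, by simp⟩
    · intro x hx
      exact Or.inr ⟨r₀, by simp, hx⟩
  let st : (n : ℕ) → {σ : List Tile × List Rct // Inv r₀ C n σ} := fun n =>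
    Nat.rec (motive := fun n => {σ : List Tile × List Rct // Inv r₀ C n σ}) ⟨_, h0⟩
      (fun n σ => ⟨Classical.choose (inv_step hC σ.2),
        (Classical.choose_spec (inv_step hC σ.2)).1⟩) n
  have hmono1 : ∀ n, ∀ t ∈ (st n).1.1, t ∈ (st (n + 1)).1.1 := fun n =>
    (Classical.choose_spec (inv_step hC (st n).2)).2
  have hmono : ∀ n m, n ≤ m → ∀ t ∈ (st n).1.1, t ∈ (st m).1.1 := by
    intro n m hnm
    induction hnm with
    | refl => exact fun t ht => ht
    | step _ ih => exact fun t ht => hmono1 _ t (ih t ht)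
  refine ⟨{t | ∃ n, t ∈ (st n).1.1}, ?_, ?_, ?_, ?_, ?_⟩
  · have : {t | ∃ n, t ∈ (st n).1.1} = ⋃ n, {t | t ∈ (st n).1.1} := by
      ext t; simp
    rw [this]
    exact Set.countable_iUnion fun n => (List.finite_toSet _).countable
  · rintro s ⟨n, hn⟩ t ⟨m, hm⟩ hst
    exact List.inj_on_of_nodup_map (st (max n m)).2.nodup (hmono _ _ (le_max_left n m) s hn)
      (hmono _ _ (le_max_right n m) t hm) hst
  · rintro t ⟨n, hn⟩
    obtain ⟨h1, h2, h3⟩ := (st n).2.sz t hn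
    exact ⟨h1, h2, h3, (st n).2.top t hn⟩
  · rintro s ⟨n, hn⟩ t ⟨m, hm⟩ hst
    have : Std.Symm (fun s t : Tile => Dj s.op t.op) := ⟨fun _ _ h => h.symm⟩
    exact List.Pairwise.forall (st (max n m)).2.pt (hmono _ _ (le_max_left n m) s hn)
      (hmono _ _ (le_max_right n m) t hm) hst
  · intro x hx hx2
    obtain ⟨n, hn⟩ : ∃ n : ℕ, r₀.h / x.2 < 2 ^ n := pow_unbounded_of_one_lt _ (by norm_num)
    rcases (st n).2.cov x hx with ⟨t, ht, htx⟩ | ⟨r, hr, hrx⟩
    · exact ⟨t, ⟨n, ht⟩, htx⟩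
    · exfalso
      obtain ⟨_, _, h3⟩ := (st n).2.rok r hr
      have h4 : x.2 ≤ r.h := hrx.2.2.2
      rw [div_lt_iff₀ hx2] at hn
      have : (2 : ℝ) ^ n * x.2 ≤ 2 ^ n * r.h := by gcongr
      linarith

end Pool.Agent.H245R2.Tri
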