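import Mathlib

/-!
# Numerical part of the tiling of the plane by incongruent equilateral triangles
-/

set_option autoImplicit false

namespace Pool.Agent.H245R2.Tri

/-- Admissible (width, height) pairs of holes. -/
def K (w h : ℝ) : Prop := (64 * h < 33 * w ∧ w < 2 * h) ∨ 10 * h < w

/-- The three triangle sizes used for each column `(y, x)`. -/
def sizes : List (ℝ × ℝ) → List ℝ
  | [] => []
  | (p :: L) => p.1 :: p.2 :: (p.1 - p.2) :: sizes L

/-- A column `(y, x)` of a hole of height `h`. -/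
def PieceOK (h : ℝ) (p : ℝ × ℝ) : Prop :=
  0 < p.2 ∧ p.2 < p.1 ∧ p.1 < h ∧ K p.2 (h - p.2) ∧ K (p.1 - p.2) (h - p.1) ∧ h ≤ 2 * p.2

/-- A width that can be used for one column, with an interval of choices for `x`. -/
def One (h y : ℝ) : Prop := ∃ l u, l < u ∧ ∀ x, l < x → x < u → PieceOK h (y, x)

/-- A width that can be decomposed into columns with new sizes. -/
def Good (h w : ℝ) : Prop := ∀ F : Set ℝ, F.Countable → ∃ L : List (ℝ × ℝ),
  (∀ p ∈ L, PieceOK h p) ∧ (L.map Prod.fst).sum = w ∧ (sizes L).Nodup ∧ ∀ s ∈ sizes L, s ∉ F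

theorem one_Y1 {h y : ℝ} (_hh : 0 < h) (h1 : 32 * h < 33 * y) (h2 : y < h) : One h y := by
  refine ⟨64 / 97 * h, 2 / 3 * h, by linarith, fun x hl hu => ?_⟩
  refine ⟨by linarith, ?_, h2, Or.inl ⟨?_, ?_⟩, Or.inr ?_, ?_⟩ <;> simp only <;> linarith

theorem one_Y2 {h y : ℝ} (hh : 0 < h) (h1 : 23 * h < 26 * y) (h2 : 9 * y < 8 * h) : One h y := by
  refine ⟨max (64 / 97 * h) (3 * y - 2 * h), min (2 / 3 * h) ((97 * y - 64 * h) / 33), ?_,
    fun x hl hu => ?_⟩
  · rw [max_lt_iff, lt_min_iff, lt_min_iff]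
    refine ⟨⟨by linarith, by linarith⟩, ⟨by linarith, by linarith⟩⟩
  · rw [max_lt_iff] at hl
    rw [lt_min_iff] at hu
    obtain ⟨hl1, hl2⟩ := hl
    obtain ⟨hu1, hu2⟩ := hu
    refine ⟨by linarith, ?_, ?_, Or.inl ⟨?_, ?_⟩, Or.inl ⟨?_, ?_⟩, ?_⟩ <;> simp only <;> linarith

theorem exists_avoid {l u : ℝ} (hlu : l < u) {F : Set ℝ} (hF : F.Countable) :
    ∃ x, l < x ∧ x < u ∧ x ∉ F := by
  obtain ⟨x, hx, h1⟩ := (hF.dense_compl ℝ).exists_between hlu
  exact ⟨x, h1.1, h1.2, hx⟩

theorem one_choose {h y : ℝ} (hy : One h y) {F : Set ℝ} (hF : F.Countable) :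
    ∃ x, PieceOK h (y, x) ∧ x ∉ F ∧ y - x ∉ F ∧ x ≠ y - x := by
  obtain ⟨l, u, hlu, H⟩ := hy
  have hc : (F ∪ ((fun f => y - f) '' F) ∪ {y / 2}).Countable :=
    (hF.union (hF.image _)).union (Set.countable_singleton _)
  obtain ⟨x, h1, h2, h3⟩ := exists_avoid hlu hc
  refine ⟨x, H x h1 h2, fun hx => h3 (Or.inl (Or.inl hx)), fun hx => ?_, fun hx => ?_⟩
  · exact h3 (Or.inl (Or.inr ⟨y - x, hx, by ring⟩))
  · refine h3 (Or.inr ?_)
    simp only [Set.mem_singleton_iff]
    linarith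

theorem good_one_add {h : ℝ} {α β γ δ : ℝ} (hαβ : α < β) (hγδ : γ < δ)
    (H1 : ∀ w, α < w → w < β → Good h w) (H2 : ∀ y, γ < y → y < δ → One h y) :
    ∀ w, α + γ < w → w < β + δ → Good h w := by
  intro w hw1 hw2 F hF
  have hlt : max γ (w - β) < min δ (w - α) := by
    rw [max_lt_iff, lt_min_iff, lt_min_iff]
    refine ⟨⟨hγδ, by linarith⟩, ⟨by linarith, by linarith⟩⟩
  obtain ⟨y, hy1, hy2, hyF⟩ := exists_avoid hlt hF
  rw [max_lt_iff] at hy1
  rw [lt_min_iff] at hy2
  obtain ⟨x, hx, hxF, hyxF, hne⟩ := one_choose (H2 y hy1.1 hy2.1) hF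
  have hF' : (F ∪ {y, x, y - x}).Countable := hF.union (Set.toFinite _).countable
  obtain ⟨L, hL1, hL2, hL3, hL4⟩ := H1 (w - y) (by linarith [hy2.2]) (by linarith [hy1.2]) _ hF'
  have hx0 : 0 < x := hx.1
  have hxy : x < y := hx.2.1
  refine ⟨(y, x) :: L, ?_, ?_, ?_, ?_⟩
  · intro p hp
    rcases List.mem_cons.1 hp with rfl | hp
    · exact hx
    · exact hL1 p hp
  · simp only [List.map_cons, List.sum_cons, hL2]
    ring
  · have n1 : y ∉ sizes L := fun hm => hL4 y hm (Or.inr (by simp))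
    have n2 : x ∉ sizes L := fun hm => hL4 x hm (Or.inr (by simp))
    have n3 : y - x ∉ sizes L := fun hm => hL4 _ hm (Or.inr (by simp))
    simp only [sizes, List.nodup_cons, List.mem_cons, not_or]
    refine ⟨⟨ne_of_gt hxy, ?_, n1⟩, ⟨hne, n2⟩, n3, hL3⟩
    intro hh
    linarith
  · intro s hs
    simp only [sizes, List.mem_cons] at hs
    rcases hs with rfl | rfl | rfl | hs
    · exact hyF
    · exact hxF
    · exact hyxF
    · exact fun hsF => hL4 s hs (Or.inl hsF)

theorem good_one_one {h : ℝ} {α β γ δ : ℝ} (hαβ : α < β) (hγδ : γ < δ)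
    (H1 : ∀ w, α < w → w < β → One h w) (H2 : ∀ y, γ < y → y < δ → One h y) :
    ∀ w, α + γ < w → w < β + δ → Good h w := by
  intro w hw1 hw2 F hF
  have hlt : max γ (w - β) < min δ (w - α) := by
    rw [max_lt_iff, lt_min_iff, lt_min_iff]
    refine ⟨⟨hγδ, by linarith⟩, ⟨by linarith, by linarith⟩⟩
  have hc : (F ∪ ((fun f => w - f) '' F) ∪ {w / 2}).Countable :=
    (hF.union (hF.image _)).union (Set.countable_singleton _)
  obtain ⟨y, hy1, hy2, hyF⟩ := exists_avoid hlt hc
  rw [max_lt_iff] at hy1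
  rw [lt_min_iff] at hy2
  obtain ⟨z, hz⟩ : ∃ z, z = w - y := ⟨_, rfl⟩
  have hyF1 : y ∉ F := fun hh => hyF (Or.inl (Or.inl hh))
  have hzF1 : z ∉ F := fun hh => hyF (Or.inl (Or.inr ⟨z, hh, by rw [hz]; ring⟩))
  have hyz : y ≠ z := by
    intro hh
    refine hyF (Or.inr ?_)
    simp only [Set.mem_singleton_iff]
    linarith
  have hF1 : (F ∪ {z}).Countable := hF.union (Set.countable_singleton _)
  obtain ⟨x, hx, hxF, hyxF, hne⟩ := one_choose (H2 y hy1.1 hy2.1) hF1
  have hF' : (F ∪ {y, x, y - x}).Countable := hF.union (Set.toFinite _).countable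
  obtain ⟨x', hx', hxF', hyxF', hne'⟩ :=
    one_choose (H1 z (by linarith [hy2.2]) (by linarith [hy1.2])) hF'
  have hx0 : 0 < x := hx.1
  have hxy : x < y := hx.2.1
  have hx0' : 0 < x' := hx'.1
  have hxy' : x' < z := hx'.2.1
  have a1 : z ≠ x := fun hh => hxF (Or.inr (by simp [hh]))
  have a2 : z ≠ y - x := fun hh => hyxF (Or.inr (by simp [hh]))
  have b1 : x' ≠ y := fun hh => hxF' (Or.inr (by simp [hh]))
  have b2 : x' ≠ x := fun hh => hxF' (Or.inr (by simp [hh]))
  have b3 : x' ≠ y - x := fun hh => hxF' (Or.inr (by simp [hh]))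
  have c1 : z - x' ≠ y := fun hh => hyxF' (Or.inr (by simp [hh]))
  have c2 : z - x' ≠ x := fun hh => hyxF' (Or.inr (by simp [hh]))
  have c3 : z - x' ≠ y - x := fun hh => hyxF' (Or.inr (by simp [hh]))
  refine ⟨[(y, x), (z, x')], ?_, ?_, ?_, ?_⟩
  · intro p hp
    simp only [List.mem_cons, List.not_mem_nil, or_false] at hp
    rcases hp with rfl | rfl
    · exact hx
    · exact hx'
  · simp [hz]
  · simp only [sizes, List.nodup_cons, List.mem_cons, not_or, List.not_mem_nil, not_false_eq_true,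
      and_true, List.nodup_nil]
    refine ⟨⟨ne_of_gt hxy, ?_, hyz, b1.symm, c1.symm⟩, ⟨hne, a1.symm, b2.symm, c2.symm⟩,
      ⟨a2.symm, b3.symm, c3.symm⟩, ⟨ne_of_gt hxy', ?_⟩, hne'⟩
    · intro hh
      linarith
    · intro hh
      linarith
  · intro s hs
    simp only [sizes, List.mem_cons, List.not_mem_nil, or_false] at hs
    rcases hs with rfl | rfl | rfl | rfl | rfl | rfl
    · exact hyF1
    · exact fun hh => hxF (Or.inl hh)
    · exact fun hh => hyxF (Or.inl hh)
    · exact hzF1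
    · exact fun hh => hxF' (Or.inl hh)
    · exact fun hh => hyxF' (Or.inl hh)

theorem good_zero_n {h : ℝ} (hh : 0 < h) (n : ℕ) :
    ∀ w, 32 / 33 * h * (n + 2) < w → w < h * (n + 2) → Good h w := by
  have hY1 : ∀ y, 32 / 33 * h < y → y < h → One h y := fun y h1 h2 =>
    one_Y1 hh (by linarith) h2
  induction n with
  | zero =>
    intro w hw1 hw2
    refine good_one_one (by linarith) (by linarith) hY1 hY1 w ?_ ?_
    · push_cast at hw1; linarith
    · push_cast at hw2; linarith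
  | succ n ih =>
    intro w hw1 hw2
    have hn : (0 : ℝ) ≤ n := Nat.cast_nonneg n
    refine good_one_add (α := 32 / 33 * h * (n + 2)) (β := h * (n + 2)) ?_ (by linarith) ih hY1 w
      ?_ ?_
    · nlinarith
    · push_cast at hw1; linarith
    · push_cast at hw2; linarith

theorem good_m_n {h : ℝ} (hh : 0 < h) (n m : ℕ) :
    ∀ w, 32 / 33 * h * (n + 2) + 23 / 26 * h * m < w → w < h * (n + 2) + 8 / 9 * h * m →
      Good h w := by
  have hY2 : ∀ y, 23 / 26 * h < y → y < 8 / 9 * h → One h y := fun y h1 h2 =>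
    one_Y2 hh (by linarith) (by linarith)
  induction m with
  | zero =>
    intro w hw1 hw2
    refine good_zero_n hh n w ?_ ?_
    · push_cast at hw1; linarith
    · push_cast at hw2; linarith
  | succ m ih =>
    intro w hw1 hw2
    have hn : (0 : ℝ) ≤ n := Nat.cast_nonneg n
    have hm : (0 : ℝ) ≤ m := Nat.cast_nonneg m
    refine good_one_add (α := 32 / 33 * h * (n + 2) + 23 / 26 * h * m)
      (β := h * (n + 2) + 8 / 9 * h * m) ?_ (by linarith) ih hY2 w ?_ ?_
    · nlinarith [mul_nonneg hh.le hn, mul_nonneg hh.le hm]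
    · push_cast at hw1; linarith
    · push_cast at hw2; linarith

theorem good_of_K {h w : ℝ} (hh : 0 < h) (hK : K w h) : Good h w := by
  rcases hK with ⟨h1, h2⟩ | h1
  · refine good_m_n hh 0 0 w ?_ ?_
    · push_cast; linarith
    · push_cast; linarith
  · -- `k = ⌊w / h⌋ + 1`
    have hw0 : 0 < w := by linarith
    obtain ⟨k, hk1, hk2⟩ : ∃ k : ℕ, (k : ℝ) * h ≤ w ∧ w < (k + 1) * h := by
      refine ⟨⌊w / h⌋₊, ?_, ?_⟩
      · have := Nat.floor_le (show 0 ≤ w / h by positivity)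
        calc (⌊w / h⌋₊ : ℝ) * h ≤ w / h * h := by gcongr
          _ = w := by field_simp
      · have := Nat.lt_floor_add_one (w / h)
        calc w = w / h * h := by field_simp
          _ < _ := by gcongr
    have hk10 : 10 ≤ k := by
      by_contra hcon
      push Not at hcon
      have : (k : ℝ) + 1 ≤ 10 := by exact_mod_cast hcon
      nlinarith
    obtain ⟨j, rfl⟩ : ∃ j, k = j + 10 := ⟨k - 10, by omega⟩
    push_cast at hk1 hk2
    have hj : (0 : ℝ) ≤ j := Nat.cast_nonneg j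
    have hjh : 0 ≤ j * h := mul_nonneg hj hh.le
    -- δ = (j + 11) h - w ∈ (0, h]
    have key : ∀ m : ℕ, m ≤ 8 → (m : ℝ) / 9 * h < (j + 11) * h - w →
        (j + 11) * h - w < (1 / 3 + m * (3 / 26 - 1 / 33)) * h → Good h w := by
      intro m hm hm1 hm2
      have hm' : (m : ℝ) ≤ 8 := by exact_mod_cast hm
      refine good_m_n hh (j + 9 - m) m w ?_ ?_
      · have e : ((j + 9 - m : ℕ) : ℝ) = j + 9 - m := by
          rw [Nat.cast_sub (by omega)]; push_cast; ring
        rw [e]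
        nlinarith
      · have e : ((j + 9 - m : ℕ) : ℝ) = j + 9 - m := by
          rw [Nat.cast_sub (by omega)]; push_cast; ring
        rw [e]
        nlinarith
    by_cases c0 : (j + 11) * h - w < (1 / 3 + 0 * (3 / 26 - 1 / 33)) * h
    · exact key 0 (by norm_num) (by push_cast; linarith) (by push_cast; linarith)
    by_cases c1 : (j + 11) * h - w < (1 / 3 + 1 * (3 / 26 - 1 / 33)) * h
    · exact key 1 (by norm_num) (by push_cast; linarith) (by push_cast; linarith)
    by_cases c2 : (j + 11) * h - w < (1 / 3 + 2 * (3 / 26 - 1 / 33)) * h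
    · exact key 2 (by norm_num) (by push_cast; linarith) (by push_cast; linarith)
    by_cases c3 : (j + 11) * h - w < (1 / 3 + 3 * (3 / 26 - 1 / 33)) * h
    · exact key 3 (by norm_num) (by push_cast; linarith) (by push_cast; linarith)
    by_cases c4 : (j + 11) * h - w < (1 / 3 + 4 * (3 / 26 - 1 / 33)) * h
    · exact key 4 (by norm_num) (by push_cast; linarith) (by push_cast; linarith)
    by_cases c5 : (j + 11) * h - w < (1 / 3 + 5 * (3 / 26 - 1 / 33)) * h
    · exact key 5 (by norm_num) (by push_cast; linarith) (by push_cast; linarith)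
    by_cases c6 : (j + 11) * h - w < (1 / 3 + 6 * (3 / 26 - 1 / 33)) * h
    · exact key 6 (by norm_num) (by push_cast; linarith) (by push_cast; linarith)
    by_cases c7 : (j + 11) * h - w < (1 / 3 + 7 * (3 / 26 - 1 / 33)) * h
    · exact key 7 (by norm_num) (by push_cast; linarith) (by push_cast; linarith)
    · exact key 8 (by norm_num) (by push_cast; linarith) (by push_cast; linarith)

end Pool.Agent.H245R2.Tri
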