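import Pool.Agent.H245R2.TriHole

/-!
# Tiling the whole plane by triangles of distinct sizes, in oblique coordinates
-/

set_option autoImplicit false

namespace Pool.Agent.H245R2.Tri

/-- the pentagon `u ≥ u0, v0 ≤ v ≤ v1, w0 ≤ u + v ≤ w1` -/
structure St where
  u0 : ℝ
  v0 : ℝ
  v1 : ℝ
  w0 : ℝ
  w1 : ℝ

namespace St

/-- closed pentagon -/
def cl (σ : St) : Set Pt :=
  {x | σ.u0 ≤ x.1 ∧ σ.v0 ≤ x.2 ∧ x.2 ≤ σ.v1 ∧ σ.w0 ≤ x.1 + x.2 ∧ x.1 + x.2 ≤ σ.w1}

/-- open pentagon -/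
def op (σ : St) : Set Pt :=
  {x | σ.u0 < x.1 ∧ σ.v0 < x.2 ∧ x.2 < σ.v1 ∧ σ.w0 < x.1 + x.2 ∧ x.1 + x.2 < σ.w1}

/-- invariants -/
def Ok (σ : St) : Prop :=
  σ.u0 + σ.v0 < σ.w0 ∧ σ.w0 < σ.u0 + σ.v1 ∧ σ.u0 + σ.v1 < σ.w1 ∧ 1 ≤ σ.v1 - σ.v0 ∧
    1 ≤ σ.w1 - σ.w0

/-- the pentagon after six steps of the spiral -/
def next (σ : St) : St where
  u0 := σ.u0 + (σ.w0 - (σ.w1 - σ.v0)) - σ.v1
  v0 := σ.w0 - (σ.w1 - σ.v0)
  v1 := σ.w1 - (σ.u0 + (σ.w0 - (σ.w1 - σ.v0)) - σ.v1)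
  w0 := σ.u0 + (σ.w0 - (σ.w1 - σ.v0))
  w1 := (σ.w1 - σ.v0) + (σ.w1 - (σ.u0 + (σ.w0 - (σ.w1 - σ.v0)) - σ.v1))

/-- the six tiles -/
def tl (σ : St) : List Tile :=
  [Tile.dn (σ.w1 - σ.v0) σ.v0 (σ.w1 - σ.w0),
   Tile.up σ.u0 σ.next.v0 (σ.w1 - σ.v0 - σ.u0),
   Tile.dn σ.u0 σ.v1 (σ.v1 - σ.next.v0),
   Tile.up σ.next.u0 σ.v1 (σ.w1 - σ.next.w0),
   Tile.dn (σ.w1 - σ.v0) σ.next.v1 (σ.w1 - σ.v0 - σ.next.u0),
   Tile.up (σ.w1 - σ.v0) σ.next.v0 (σ.next.v1 - σ.next.v0)]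

theorem ok_next {σ : St} (h : σ.Ok) : σ.next.Ok := by
  obtain ⟨h1, h2, h3, h4, h5⟩ := h
  refine ⟨?_, ?_, ?_, ?_, ?_⟩ <;> simp only [next] <;> linarith

theorem tl_sub {σ : St} (h : σ.Ok) : ∀ t ∈ σ.tl, t.op ⊆ σ.next.op := by
  obtain ⟨h1, h2, h3, h4, h5⟩ := h
  intro t ht x hx
  simp only [tl, List.mem_cons, List.not_mem_nil, or_false] at ht
  rcases ht with rfl | rfl | rfl | rfl | rfl | rfl <;> obtain ⟨a1, a2, a3⟩ := hx <;>
    (try simp only [next] at a1 a2 a3) <;>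
    refine ⟨?_, ?_, ?_, ?_, ?_⟩ <;> simp only [next] <;> linarith

theorem op_sub {σ : St} (h : σ.Ok) : σ.op ⊆ σ.next.op := by
  obtain ⟨h1, h2, h3, h4, h5⟩ := h
  intro x hx
  obtain ⟨a1, a2, a3, a4, a5⟩ := hx
  refine ⟨?_, ?_, ?_, ?_, ?_⟩ <;> simp only [next] <;> linarith

theorem tl_dj {σ : St} (h : σ.Ok) : ∀ t ∈ σ.tl, Dj t.op σ.op := by
  obtain ⟨h1, h2, h3, h4, h5⟩ := h
  intro t ht x hx hy
  simp only [tl, List.mem_cons, List.not_mem_nil, or_false] at ht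
  obtain ⟨b1, b2, b3, b4, b5⟩ := hy
  rcases ht with rfl | rfl | rfl | rfl | rfl | rfl <;> obtain ⟨a1, a2, a3⟩ := hx <;>
    (try simp only [next] at a1 a2 a3) <;> linarith

theorem tl_pw {σ : St} (h : σ.Ok) : σ.tl.Pairwise (fun s t => Dj s.op t.op) := by
  obtain ⟨h1, h2, h3, h4, h5⟩ := h
  simp only [tl, List.pairwise_cons, List.mem_cons, List.not_mem_nil, or_false, forall_eq_or_imp,
    forall_eq, List.Pairwise.nil, and_true, IsEmpty.forall_iff, implies_true]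
  refine ⟨⟨?_, ?_, ?_, ?_, ?_⟩, ⟨?_, ?_, ?_, ?_⟩, ⟨?_, ?_, ?_⟩, ⟨?_, ?_⟩, ?_⟩ <;>
    rintro x ⟨a1, a2, a3⟩ ⟨b1, b2, b3⟩ <;> simp only [next] at a1 a2 a3 b1 b2 b3 <;> linarith

theorem tl_sizes {σ : St} (h : σ.Ok) : (σ.tl.map Tile.size).Pairwise (· < ·) ∧
    ∀ t ∈ σ.tl, σ.w1 - σ.w0 ≤ t.size ∧ t.size < σ.next.w1 - σ.next.w0 := by
  obtain ⟨h1, h2, h3, h4, h5⟩ := h
  constructor
  · simp only [tl, List.map_cons, List.map_nil, Tile.size, List.pairwise_cons, List.mem_cons,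
      List.not_mem_nil, or_false, forall_eq_or_imp,
      forall_eq, List.Pairwise.nil, and_true, IsEmpty.forall_iff, implies_true, next]
    refine ⟨⟨?_, ?_, ?_, ?_, ?_⟩, ⟨?_, ?_, ?_, ?_⟩, ⟨?_, ?_, ?_⟩, ⟨?_, ?_⟩, ?_⟩ <;> linarith
  · intro t ht
    simp only [tl, List.mem_cons, List.not_mem_nil, or_false] at ht
    rcases ht with rfl | rfl | rfl | rfl | rfl | rfl <;> simp only [Tile.size, next] <;>
      constructor <;> linarith

theorem cover_next {σ : St} : ∀ x ∈ σ.next.cl, x ∈ σ.cl ∨ ∃ t ∈ σ.tl, x ∈ t.cl := by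
  rintro x ⟨h1, h2, h3, h4, h5⟩
  simp only [next] at h1 h2 h3 h4 h5
  simp only [tl, List.mem_cons, List.not_mem_nil, or_false, exists_eq_or_imp, exists_eq_left]
  by_cases c1 : σ.w1 - σ.v0 ≤ x.1
  · right; right; right; right; right; right
    refine ⟨c1, ?_, ?_⟩ <;> (try simp only [next]) <;> linarith
  by_cases c2 : σ.w1 ≤ x.1 + x.2
  · right; right; right; right; right; left
    refine ⟨?_, ?_, ?_⟩ <;> (try simp only [next]) <;> linarith
  by_cases c3 : σ.v1 ≤ x.2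
  · right; right; right; right; left
    refine ⟨?_, ?_, ?_⟩ <;> (try simp only [next]) <;> linarith
  by_cases c4 : x.1 ≤ σ.u0
  · right; right; right; left
    refine ⟨?_, ?_, ?_⟩ <;> (try simp only [next]) <;> linarith
  by_cases c5 : x.1 + x.2 ≤ σ.w0
  · right; right; left
    refine ⟨?_, ?_, ?_⟩ <;> (try simp only [next]) <;> linarith
  by_cases c6 : x.2 ≤ σ.v0
  · right; left
    refine ⟨?_, ?_, ?_⟩ <;> linarith
  · left
    refine ⟨?_, ?_, ?_, ?_, ?_⟩ <;> linarith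

end St

/-- the sequence of pentagons -/
def S : ℕ → St
  | 0 => ⟨0, -11, 1, 0, 13⟩
  | (n + 1) => (S n).next

theorem S_ok (n : ℕ) : (S n).Ok := by
  induction n with
  | zero => refine ⟨?_, ?_, ?_, ?_, ?_⟩ <;> norm_num [S]
  | succ n ih => exact St.ok_next ih

theorem S_bounds (n : ℕ) : (S n).u0 ≤ -n ∧ (S n).v0 ≤ -n ∧ n ≤ (S n).v1 ∧ (S n).w0 ≤ -n ∧
    n ≤ (S n).w1 := by
  induction n with
  | zero => norm_num [S]
  | succ n ih =>
    obtain ⟨a1, a2, a3, a4, a5⟩ := ih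
    obtain ⟨h1, h2, h3, h4, h5⟩ := S_ok n
    refine ⟨?_, ?_, ?_, ?_, ?_⟩ <;> simp only [S, St.next] <;> push_cast <;> linarith

theorem S_op_mono {n m : ℕ} (h : n ≤ m) : (S n).op ⊆ (S m).op := by
  induction h with
  | refl => exact subset_rfl
  | step _ ih => exact ih.trans (St.op_sub (S_ok _))

theorem S_size_mono {n m : ℕ} (h : n ≤ m) : (S n).w1 - (S n).w0 ≤ (S m).w1 - (S m).w0 := by
  induction h with
  | refl => exact le_rfl
  | step _ ih =>
    refine ih.trans ?_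
    obtain ⟨h1, h2⟩ := St.tl_sizes (S_ok _)
    have := h2 _ List.mem_cons_self
    exact this.1.trans this.2.le

theorem S_cover (n : ℕ) : ∀ x ∈ (S n).cl, x ∈ (S 0).cl ∨ ∃ k, ∃ t ∈ (S k).tl, x ∈ t.cl := by
  induction n with
  | zero => exact fun x hx => Or.inl hx
  | succ n ih =>
    intro x hx
    rcases St.cover_next x hx with h | ⟨t, ht, htx⟩
    · exact ih x h
    · exact Or.inr ⟨n, t, ht, htx⟩

theorem S_all (x : Pt) : ∃ n, x ∈ (S n).cl := by
  obtain ⟨n, hn⟩ := exists_nat_ge (|x.1| + |x.2|)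
  obtain ⟨a1, a2, a3, a4, a5⟩ := S_bounds n
  have b1 := abs_le.1 (le_refl |x.1|)
  have b2 := abs_le.1 (le_refl |x.2|)
  have c1 := abs_nonneg x.1
  have c2 := abs_nonneg x.2
  refine ⟨n, ?_, ?_, ?_, ?_, ?_⟩ <;> linarith [b1.1, b1.2, b2.1, b2.2]

/-- The rotation by `-60°` carrying the standard hole of width 12 to the second hole. -/
def psi : Tile → Tile
  | Tile.up c d s => Tile.dn (c + d + s + 11) (1 - c) s
  | Tile.dn c d s => Tile.up (c + d - s + 11) (1 - c) s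

/-- inverse rotation on points -/
def psiInv (x : Pt) : Pt := (1 - x.2, x.1 + x.2 - 12)

theorem psi_size (t : Tile) : (psi t).size = t.size := by cases t <;> rfl

theorem mem_psi_cl (t : Tile) (x : Pt) : x ∈ (psi t).cl ↔ psiInv x ∈ t.cl := by
  cases t with
  | up c d s =>
    simp only [psi, psiInv, Tile.cl, Set.mem_ofPred_eq]
    constructor
    · rintro ⟨h1, h2, h3⟩; refine ⟨?_, ?_, ?_⟩ <;> linarith
    · rintro ⟨h1, h2, h3⟩; refine ⟨?_, ?_, ?_⟩ <;> linarith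
  | dn c d s =>
    simp only [psi, psiInv, Tile.cl, Set.mem_ofPred_eq]
    constructor
    · rintro ⟨h1, h2, h3⟩; refine ⟨?_, ?_, ?_⟩ <;> linarith
    · rintro ⟨h1, h2, h3⟩; refine ⟨?_, ?_, ?_⟩ <;> linarith

theorem mem_psi_op (t : Tile) (x : Pt) : x ∈ (psi t).op ↔ psiInv x ∈ t.op := by
  cases t with
  | up c d s =>
    simp only [psi, psiInv, Tile.op, Set.mem_ofPred_eq]
    constructor
    · rintro ⟨h1, h2, h3⟩; refine ⟨?_, ?_, ?_⟩ <;> linarith
    · rintro ⟨h1, h2, h3⟩; refine ⟨?_, ?_, ?_⟩ <;> linarith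
  | dn c d s =>
    simp only [psi, psiInv, Tile.op, Set.mem_ofPred_eq]
    constructor
    · rintro ⟨h1, h2, h3⟩; refine ⟨?_, ?_, ?_⟩ <;> linarith
    · rintro ⟨h1, h2, h3⟩; refine ⟨?_, ?_, ?_⟩ <;> linarith

/-- The seed: the first pentagon is tiled. -/
theorem seed : ∃ T : Set Tile, T.Countable ∧ Set.InjOn Tile.size T ∧
    (∀ t ∈ T, 0 < t.size ∧ t.size < 13 ∧ t.op ⊆ (S 0).op) ∧
    (∀ s ∈ T, ∀ t ∈ T, s ≠ t → Dj s.op t.op) ∧ ∀ x ∈ (S 0).cl, ∃ t ∈ T, x ∈ t.cl := by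
  have ok1 : Rct.OK ⟨0, 11, 1⟩ := ⟨by norm_num, by norm_num, Or.inr (by norm_num)⟩
  have ok2 : Rct.OK ⟨0, 12, 1⟩ := ⟨by norm_num, by norm_num, Or.inr (by norm_num)⟩
  obtain ⟨T1, a1, a2, a3, a4, a5⟩ := hole ok1 Set.countable_empty
  obtain ⟨T2, b1, b2, b3, b4, b5⟩ := hole ok2 (a1.image Tile.size)
  let A : Tile := Tile.dn 11 0 11
  let B : Tile := Tile.up 11 (-11) 12
  have hA : A.op ⊆ (S 0).op := by
    rintro x ⟨h1, h2, h3⟩
    refine ⟨?_, ?_, ?_, ?_, ?_⟩ <;> simp only [S] <;> linarith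
  have hB : B.op ⊆ (S 0).op := by
    rintro x ⟨h1, h2, h3⟩
    refine ⟨?_, ?_, ?_, ?_, ?_⟩ <;> simp only [S] <;> linarith
  have z1 : ∀ t ∈ T1, ∀ x ∈ t.op, 0 < x.1 ∧ x.1 < 11 ∧ 0 < x.2 ∧ x.2 < 1 := by
    intro t ht x hx
    obtain ⟨c1, c2, c3, c4⟩ := (a3 t ht).2.2.2 hx
    simp only at c1 c2 c3 c4
    refine ⟨c1, by linarith, c3, c4⟩
  have z2 : ∀ t ∈ T2, ∀ x ∈ (psi t).op, 12 < x.1 + x.2 ∧ x.1 + x.2 < 13 ∧ -11 < x.2 ∧ x.2 < 1 := by
    intro t ht x hx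
    rw [mem_psi_op] at hx
    obtain ⟨c1, c2, c3, c4⟩ := (b3 t ht).2.2.2 hx
    simp only [psiInv] at c1 c2 c3 c4
    refine ⟨by linarith, by linarith, by linarith, by linarith⟩
  have s1 : ∀ t ∈ T1, 0 < t.size ∧ t.size < 1 := fun t ht => ⟨(a3 t ht).2.1, (a3 t ht).2.2.1⟩
  have s2 : ∀ t ∈ T2, 0 < t.size ∧ t.size < 1 := fun t ht => ⟨(b3 t ht).2.1, (b3 t ht).2.2.1⟩
  have hAB : Dj A.op B.op := by
    rintro x ⟨h1, h2, h3⟩ ⟨k1, k2, k3⟩
    linarith
  have hA1 : ∀ t ∈ T1, Dj A.op t.op := by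
    rintro t ht x ⟨h1, h2, h3⟩ hx
    linarith [(z1 t ht x hx).2.2.1]
  have hB1 : ∀ t ∈ T1, Dj B.op t.op := by
    rintro t ht x ⟨h1, h2, h3⟩ hx
    linarith [(z1 t ht x hx).2.1]
  have hA2 : ∀ t ∈ T2, Dj A.op (psi t).op := by
    rintro t ht x ⟨h1, h2, h3⟩ hx
    linarith [(z2 t ht x hx).1]
  have hB2 : ∀ t ∈ T2, Dj B.op (psi t).op := by
    rintro t ht x ⟨h1, h2, h3⟩ hx
    linarith [(z2 t ht x hx).1]
  have h12 : ∀ s ∈ T1, ∀ t ∈ T2, Dj s.op (psi t).op := by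
    intro s hs t ht x hx hy
    linarith [(z2 t ht x hy).1, (z1 s hs x hx).2.1, (z1 s hs x hx).2.2.2]
  refine ⟨{A, B} ∪ T1 ∪ psi '' T2, ?_, ?_, ?_, ?_, ?_⟩
  · exact ((Set.toFinite _).countable.union a1).union (b1.image _)
  · have hA0 : A.size = 11 := rfl
    have hB0 : B.size = 12 := rfl
    rintro s ((hs | hs) | ⟨s, hs, rfl⟩) t ((ht | ht) | ⟨t, ht, rfl⟩) hst
    · rcases hs with rfl | rfl <;> rcases ht with rfl | rfl
      · rfl
      · rw [hA0, hB0] at hst; norm_num at hst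
      · rw [hA0, hB0] at hst; norm_num at hst
      · rfl
    · exfalso
      have := (s1 t ht).2
      rcases hs with rfl | rfl
      · rw [hA0] at hst; linarith
      · rw [hB0] at hst; linarith
    · exfalso
      have := (s2 t ht).2
      rw [psi_size] at hst
      rcases hs with rfl | rfl
      · rw [hA0] at hst; linarith
      · rw [hB0] at hst; linarith
    · exfalso
      have := (s1 s hs).2
      rcases ht with rfl | rfl
      · rw [hA0] at hst; linarith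
      · rw [hB0] at hst; linarith
    · exact a2 hs ht hst
    · exfalso
      rw [psi_size] at hst
      exact (b3 t ht).1 ⟨s, hs, hst⟩
    · exfalso
      have := (s2 s hs).2
      rw [psi_size] at hst
      rcases ht with rfl | rfl
      · rw [hA0] at hst; linarith
      · rw [hB0] at hst; linarith
    · exfalso
      rw [psi_size] at hst
      exact (b3 s hs).1 ⟨t, ht, hst.symm⟩
    · rw [psi_size, psi_size] at hst
      rw [b2 hs ht hst]
  · rintro t ((ht | ht) | ⟨t, ht, rfl⟩)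
    · rcases ht with rfl | rfl
      · exact ⟨by norm_num [A, Tile.size], by norm_num [A, Tile.size], hA⟩
      · exact ⟨by norm_num [B, Tile.size], by norm_num [B, Tile.size], hB⟩
    · refine ⟨(s1 t ht).1, by linarith [(s1 t ht).2], ?_⟩
      intro x hx
      obtain ⟨c1, c2, c3, c4⟩ := z1 t ht x hx
      refine ⟨?_, ?_, ?_, ?_, ?_⟩ <;> simp only [S] <;> linarith
    · refine ⟨by rw [psi_size]; exact (s2 t ht).1, by rw [psi_size]; linarith [(s2 t ht).2], ?_⟩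
      intro x hx
      obtain ⟨c1, c2, c3, c4⟩ := z2 t ht x hx
      refine ⟨?_, ?_, ?_, ?_, ?_⟩ <;> simp only [S] <;> linarith
  · rintro s ((hs | hs) | ⟨s, hs, rfl⟩) t ((ht | ht) | ⟨t, ht, rfl⟩) hst
    · rcases hs with rfl | rfl <;> rcases ht with rfl | rfl
      · exact absurd rfl hst
      · exact hAB
      · exact hAB.symm
      · exact absurd rfl hst
    · rcases hs with rfl | rfl
      · exact hA1 t ht
      · exact hB1 t ht
    · rcases hs with rfl | rfl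
      · exact hA2 t ht
      · exact hB2 t ht
    · rcases ht with rfl | rfl
      · exact (hA1 s hs).symm
      · exact (hB1 s hs).symm
    · exact a4 s hs t ht hst
    · exact h12 s hs t ht
    · rcases ht with rfl | rfl
      · exact (hA2 s hs).symm
      · exact (hB2 s hs).symm
    · exact (h12 t ht s hs).symm
    · intro x hx hy
      rw [mem_psi_op] at hx hy
      exact b4 s hs t ht (fun h => hst (by rw [h])) _ hx hy
  · rintro x ⟨h1, h2, h3, h4, h5⟩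
    simp only [S] at h1 h2 h3 h4 h5
    by_cases c1 : x.1 + x.2 ≤ 12
    · by_cases c2 : 11 ≤ x.1
      · exact ⟨B, Or.inl (Or.inl (Or.inr rfl)), c2, h2, by linarith⟩
      · push Not at c2
        by_cases c3 : x.2 ≤ 0
        · exact ⟨A, Or.inl (Or.inl (Or.inl rfl)), c2.le, c3, by linarith⟩
        · push Not at c3
          obtain ⟨t, ht, htx⟩ := a5 x ⟨h1, by simp only; linarith, c3.le, h3⟩ c3
          exact ⟨t, Or.inl (Or.inr ht), htx⟩
    · push Not at c1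
      have hy : psiInv x ∈ Rct.cl ⟨0, 12, 1⟩ := by
        refine ⟨?_, ?_, ?_, ?_⟩ <;> simp only [psiInv] <;> linarith
      obtain ⟨t, ht, htx⟩ := b5 (psiInv x) hy (by simp only [psiInv]; linarith)
      exact ⟨psi t, Or.inr ⟨t, ht, rfl⟩, (mem_psi_cl t x).2 htx⟩

/-- **The plane in oblique coordinates.** -/
theorem plane : ∃ T : Set Tile, T.Countable ∧ T.Infinite ∧ Set.InjOn Tile.size T ∧
    (∀ t ∈ T, 0 < t.size) ∧ (∀ s ∈ T, ∀ t ∈ T, s ≠ t → Dj s.op t.op) ∧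
    ∀ x, ∃ t ∈ T, x ∈ t.cl := by
  obtain ⟨T0, a1, a2, a3, a4, a5⟩ := seed
  let T1 : Set Tile := {t | ∃ k, t ∈ (S k).tl}
  have szlow : ∀ k, ∀ t ∈ (S k).tl, 13 ≤ t.size := by
    intro k t ht
    have h1 := ((St.tl_sizes (S_ok k)).2 t ht).1
    have h2 := S_size_mono (Nat.zero_le k)
    have h3 : (S 0).w1 - (S 0).w0 = 13 := by norm_num [S]
    linarith
  have hlt : ∀ j k, j < k → ∀ s ∈ (S j).tl, ∀ t ∈ (S k).tl, s.size < t.size ∧ Dj s.op t.op := by
    intro j k hjk s hs t ht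
    constructor
    · have h1 := ((St.tl_sizes (S_ok j)).2 s hs).2
      have h2 := ((St.tl_sizes (S_ok k)).2 t ht).1
      have h3 := S_size_mono (show j + 1 ≤ k from hjk)
      have h4 : S (j + 1) = (S j).next := rfl
      rw [h4] at h3
      linarith
    · have h1 : s.op ⊆ (S k).op := (St.tl_sub (S_ok j) s hs).trans
        (S_op_mono (show j + 1 ≤ k from hjk))
      exact ((St.tl_dj (S_ok k) t ht).mono subset_rfl h1).symm
  have hinf : T1.Infinite := by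
    have hinj : Function.Injective (fun k : ℕ => Tile.dn ((S k).w1 - (S k).v0) (S k).v0
        ((S k).w1 - (S k).w0)) := by
      intro j k hjk
      by_contra hne
      rcases lt_or_gt_of_ne hne with h | h
      · have := (hlt j k h _ (List.mem_cons_self) _ (List.mem_cons_self)).1
        simp only at hjk
        rw [hjk] at this
        exact lt_irrefl _ this
      · have := (hlt k j h _ (List.mem_cons_self) _ (List.mem_cons_self)).1
        simp only at hjk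
        rw [hjk] at this
        exact lt_irrefl _ this
    refine Set.infinite_of_injective_forall_mem hinj ?_
    intro k
    exact ⟨k, List.mem_cons_self⟩
  refine ⟨T0 ∪ T1, ?_, ?_, ?_, ?_, ?_, ?_⟩
  · refine a1.union ?_
    have : T1 = ⋃ k, {t | t ∈ (S k).tl} := by ext t; simp [T1]
    rw [this]
    exact Set.countable_iUnion fun n => (List.finite_toSet _).countable
  · exact hinf.mono Set.subset_union_right
  · rintro s (hs | ⟨j, hs⟩) t (ht | ⟨k, ht⟩) hst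
    · exact a2 hs ht hst
    · exfalso
      linarith [szlow k t ht, (a3 s hs).2.1]
    · exfalso
      linarith [szlow j s hs, (a3 t ht).2.1]
    · rcases lt_trichotomy j k with h | rfl | h
      · exact absurd hst (hlt j k h s hs t ht).1.ne
      · have hnd : ((S j).tl.map Tile.size).Nodup := by
          refine List.Pairwise.imp ?_ (St.tl_sizes (S_ok j)).1
          intro a b hab
          exact hab.ne
        exact List.inj_on_of_nodup_map hnd hs ht hst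
      · exact absurd hst (hlt k j h t ht s hs).1.ne'
  · rintro t (ht | ⟨k, ht⟩)
    · exact (a3 t ht).1
    · linarith [szlow k t ht]
  · have h01 : ∀ s ∈ T0, ∀ k, ∀ t ∈ (S k).tl, Dj s.op t.op := by
      intro s hs k t ht
      have h1 : s.op ⊆ (S k).op := (a3 s hs).2.2.trans (S_op_mono (Nat.zero_le k))
      exact ((St.tl_dj (S_ok k) t ht).mono subset_rfl h1).symm
    rintro s (hs | ⟨j, hs⟩) t (ht | ⟨k, ht⟩) hst
    · exact a4 s hs t ht hst
    · exact h01 s hs k t ht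
    · exact (h01 t ht j s hs).symm
    · rcases lt_trichotomy j k with h | rfl | h
      · exact (hlt j k h s hs t ht).2
      · have : Std.Symm (fun s t : Tile => Dj s.op t.op) := ⟨fun _ _ h => h.symm⟩
        exact List.Pairwise.forall (St.tl_pw (S_ok j)) hs ht hst
      · exact (hlt k j h t ht s hs).2.symm
  · intro x
    obtain ⟨n, hn⟩ := S_all x
    rcases S_cover n x hn with h | ⟨k, t, ht, htx⟩
    · obtain ⟨t, ht, htx⟩ := a5 x h
      exact ⟨t, Or.inl ht, htx⟩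
    · exact ⟨t, Or.inr ⟨k, ht⟩, htx⟩

end Pool.Agent.H245R2.Tri
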